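import Pool.Agent.Helper88.T1.Df

/-!
MP_e1889a_ag, theorem T1, piece FIN: a derivation of the germ has bounded order.
-/

set_option autoImplicit false

namespace Pool.Agent.Helper37.T1

open IsLocalRing Filter Pool.Agent.Helper11.SY Pool.Agent.Helper88.T1

theorem coe_le_add_iff (x a : ℝ) (y : WithTop ℝ) :
    (x : WithTop ℝ) ≤ y + (a : WithTop ℝ) ↔ ((x - a : ℝ) : WithTop ℝ) ≤ y := by
  induction y with
  | top => simp
  | coe y =>
    rw [← WithTop.coe_add, WithTop.coe_le_coe, WithTop.coe_le_coe]
    constructor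
    · intro h
      linarith
    · intro h
      linarith

theorem s_FIN : S_FIN := by
  intro R _ _ _ _ N th _ hth D hcr w A hA
  obtain ⟨f, hf⟩ : ∃ f, th f ≠ 0 := by
    by_contra h
    push Not at h
    exact hth (AlternatingMap.ext fun f => by rw [h f]; rfl)
  obtain ⟨t, ht⟩ : ∃ t : ℝ, (t : WithTop ℝ) = w.v (th f) :=
    WithTop.ne_top_iff_exists.1 fun h => hf (w.top _ h)
  refine ⟨A + t, fun g => ?_⟩
  by_cases hg : w.v g = ⊤
  · rw [w.top g hg, map_zero D, w.v.map_zero]
    simp
  obtain ⟨x, hx⟩ := WithTop.ne_top_iff_exists.1 hg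
  have key : ∀ i ∈ (Finset.univ : Finset (Fin N)),
      ((x - A : ℝ) : WithTop ℝ) ≤ w.v (D (f i) * th (Function.update f i g)) := by
    intro i _
    rw [← coe_le_add_iff, hx]
    have h2 : w.v g ≤ ∑ j, w.v (Function.update f i g j) := by
      have h3 := Finset.single_le_sum (f := fun j => w.v (Function.update f i g j))
        (fun j _ => w.nonneg _) (Finset.mem_univ i)
      simpa using h3
    refine (h2.trans (hA _)).trans ?_
    rw [w.v.map_mul]
    have h4 := add_le_add (w.nonneg (D (f i))) (le_refl (w.v (th (Function.update f i g))))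
    rw [zero_add] at h4
    exact add_le_add h4 le_rfl
  have h5 := w.v.map_le_sum key
  rw [← hcr f g, w.v.map_mul, ← ht] at h5
  rw [← hx, coe_le_add_iff]
  rw [coe_le_add_iff (x - A) t] at h5
  have h6 : x - (A + t) = x - A - t := by ring
  rw [h6]
  exact h5

end Pool.Agent.Helper37.T1
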